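import Mathlib
import Pool.Agent.Y501.SY.FinalU

/-!
# Symplectic forms in a prescribed cohomology class and homotopy class

`X` is a closed manifold with a continuous almost complex structure `J`, `σ` is a closed two-form,
and `pr : Z → X` is a normal covering with amenable deck group `Γ`. If for some one-form `β` on
`Z` whose translates are uniformly bounded, with all derivatives, the form `pr^* σ + dβ` is
uniformly taming over the complement of a subset of `X` with small components, then the class of
`σ` contains a symplectic form taming `J`, and it is homotopic through nondegenerate forms to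
every form taming `J`.
-/

set_option autoImplicit false

open Set
open scoped Manifold ContDiff

namespace Pool.Agent.Results.MP_bf98aa_gt.AmenableWeakTaming

open Pool.Agent.Y501.SYP

theorem result (d : ℕ) (Z X : Type) [TopologicalSpace Z] [ChartedSpace (ES d) Z]
    [IsManifold 𝓘(ℝ, ES d) ∞ Z] [TopologicalSpace X] [ChartedSpace (ES d) X]
    [IsManifold 𝓘(ℝ, ES d) ∞ X] (Γ : Type) [Group Γ] [MulAction Γ Z]
    [CompactSpace X] [T2Space X] (hΓ : Amenable Γ) (pr : Z → X)
    (hpr : NormalCovering (ES d) Γ pr) (J : End (ES d) X) (hJ : IsAlmostComplex J)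
    (σ : Form (ES d) X 2) (hσ : IsSmooth σ) (hσc : IsClosedForm σ)
    (β : Form (ES d) Z 1) (η : Form (ES d) Z 2) (hβ : IsSmooth β) (hη : IsSmooth η)
    (hβη : IsD β η) (hbt : BoundedTranslates1 Γ β)
    (hsmall : SmallNotUnif Γ pr J (addF (lift pr σ) η)) :
    ∃ (α : Form (ES d) X 1) (ρ : Form (ES d) X 2), IsSmooth α ∧ IsSmooth ρ ∧ IsD α ρ ∧
      IsTamingSymplectic (addF σ ρ) J ∧ ∀ τ : Form (ES d) X 2, (∀ x, TamesAt τ J x) →
        ∀ t : ℝ, 0 ≤ t → t ≤ 1 → Nondeg (seg τ (addF σ ρ) t) :=
  amenableClass hΓ pr hpr J hJ σ hσ hσc β η hβ hη hβη hbt hsmall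

end Pool.Agent.Results.MP_bf98aa_gt.AmenableWeakTaming
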