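import Mathlib
import Pool.Agent.Y685.SY.Final

/-!
# Symplectic forms in a given class and a given homotopy class: paths of rough forms suffice

Let `M` be a closed smooth manifold of dimension `m`, `τ` a continuous nondegenerate 2-form on `M`
and `θ₀` a smooth closed one.  If `τ` is joined, by a path in the Sobolev space `W^{1,m}` of
uniformly nondegenerate 2-forms, to a weakly closed form cohomologous to `θ₀`, then there is a
smooth symplectic form cohomologous to `θ₀` and homotopic to `τ` through nondegenerate 2-forms.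
The same holds for paths that are continuous in `L^1` and uniformly tame in the mean.
-/

open scoped Manifold ContDiff
open Pool.Agent.Y519.AS (TwoForm)
open Pool.Agent.Y685.SY

namespace Pool.Agent.Results.MP_bf98aa_gt.CriticalSobolevPaths

theorem result {E : Type} [NormedAddCommGroup E] [InnerProductSpace ℝ E] [FiniteDimensional ℝ E]
    [MeasurableSpace E] [BorelSpace E] (hm : 0 < Module.finrank ℝ E)
    {M : Type} [TopologicalSpace M] [ChartedSpace E M] [IsManifold 𝓘(ℝ, E) ∞ M]
    [CompactSpace M] [T2Space M] (θ : unitInterval → TwoForm E M) (θ₀ : TwoForm E M)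
    (α : Cov E M) (h₀ : θ₀.IsSmooth) (c₀ : θ₀.IsClosedForm) (hα : WeakD (θ 1) θ₀ α)
    (hτ : ContForm (θ 0))
    (hθ : (SobolevFamily θ ∧ UnifNondeg θ) ∨ (ContL1 θ ∧ MeanTame θ)) :
    ∃ (σ : TwoForm E M) (β : Cov E M), σ.IsSymplectic ∧ SmoothCov β ∧ IsD σ θ₀ β ∧
      TwoForm.Homotopic (θ 0) σ :=
  smoothing_path hm h₀ c₀ hα hτ hθ

end Pool.Agent.Results.MP_bf98aa_gt.CriticalSobolevPaths
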