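import Mathlib
import Pool.Agent.Y501.SY.FinalV

/-!
# Removable singularities in a prescribed class

`X` is a closed manifold with a continuous almost complex structure `J`, `K` is a closed subset
whose `(d-1)`-dimensional Hausdorff measure is zero, `σ₀` is a smooth closed two-form on `X` and
`β` is a bounded one-form, smooth off `K`, such that `σ = σ₀ + dβ` is bounded and weakly taming.
If the components of the set of points near which `σ` is not uniformly taming are small, then the
class of `σ₀` contains a symplectic form taming `J`, homotopic through nondegenerate forms to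
every form taming `J`.
-/

set_option autoImplicit false

open Set MeasureTheory
open scoped Manifold ContDiff

namespace Pool.Agent.Results.MP_bf98aa_gt.RemovableInClass

open Pool.Agent.Y501.SYP

theorem result (d : ℕ) (hd : 1 ≤ d) (X : Type) [TopologicalSpace X] [ChartedSpace (ES d) X]
    [IsManifold 𝓘(ℝ, ES d) ∞ X] [CompactSpace X] [T2Space X]
    (J : End (ES d) X) (hJ : IsAlmostComplex J) (K : Set X) (hK : IsClosed K)
    (hH : ∀ x₀ : X, μH[(d : ℝ) - 1] (chartAt (ES d) x₀ '' (K ∩ (chartAt (ES d) x₀).source)) = 0)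
    (σ₀ : Form (ES d) X 2) (hσ₀ : IsSmooth σ₀) (hσ₀c : IsClosedForm σ₀)
    (β : Form (ES d) X 1) (σ : Form (ES d) X 2) (hβ : SmoothOff β K) (hσ : SmoothOff σ K)
    (hβσ : EqPlusD σ σ₀ β K) (hb : ∀ x ∈ K, BddNearK β K x ∧ BddNearK σ K x)
    (hpos : ∀ x, x ∉ K → ∀ v : TangentSpace 𝓘(ℝ, ES d) x, 0 ≤ qd σ J x v)
    (hsmall : ∀ z ∈ Crit σ J K, SmallAll J (connectedComponentIn (Crit σ J K) z) z) :
    ∃ (α : Form (ES d) X 1) (ρ : Form (ES d) X 2), IsSmooth α ∧ IsSmooth ρ ∧ IsD α ρ ∧
      IsTamingSymplectic (addF σ₀ ρ) J ∧ ∀ τ : Form (ES d) X 2, (∀ x, TamesAt τ J x) →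
        ∀ t : ℝ, 0 ≤ t → t ≤ 1 → NondegForm (segment τ (addF σ₀ ρ) t) :=
  removableInClass hd J hJ K hK hH σ₀ hσ₀ hσ₀c β σ hβ hσ hβσ hb hpos hsmall

end Pool.Agent.Results.MP_bf98aa_gt.RemovableInClass
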